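import Mathlib
import Pool.Agent.W889.SR.Stm

/-!
# SR-K3: Scott sentence from definable orbits
-/

set_option autoImplicit false

namespace Pool.Agent.W917.SR

open Pool.Agent.W889.SR

/-- invariance of quantifier-free formulas under isomorphism -/
theorem qf_iso {A B : Type} {r : A → A → Prop} {t : B → B → Prop} (g : r ≃r t) {n : ℕ}
    (φ : QF n) (v : Fin n → A) : φ.Realize r v ↔ φ.Realize t (g ∘ v) := by
  induction φ with
  | tru => exact Iff.rfl
  | le i j => exact (g.map_rel_iff).symm
  | eq i j => exact (g.injective.eq_iff).symm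
  | neg φ ih => exact not_congr ih
  | and φ ψ ih1 ih2 => exact and_congr ih1 ih2

theorem comp_append {A B : Type} (g : A → B) {n k : ℕ} (v : Fin n → A) (w : Fin k → A) :
    g ∘ Fin.append v w = Fin.append (g ∘ v) (g ∘ w) := by
  funext i
  induction i using Fin.addCases with
  | left i => simp
  | right i => simp

/-- invariance of infinitary formulas under isomorphism -/
theorem fml_iso {A B : Type} {r : A → A → Prop} {t : B → B → Prop} (g : r ≃r t) {n : ℕ}
    (φ : Fml n) : ∀ (v : Fin n → A), φ.Realize r v ↔ φ.Realize t (g ∘ v) := by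
  induction φ with
  | qf φ => exact fun v => qf_iso g φ v
  | disj k φ ih =>
    intro v
    constructor
    · rintro ⟨i, w, hw⟩
      refine ⟨i, g ∘ w, ?_⟩
      rw [← comp_append]
      exact (ih i _).1 hw
    · rintro ⟨i, w, hw⟩
      refine ⟨i, g.symm ∘ w, ?_⟩
      rw [ih i, comp_append]
      have : (g : A → B) ∘ (g.symm : B → A) ∘ w = w := by
        funext j; simp
      rw [this]
      exact hw
  | conj k φ ih =>
    intro v
    constructor
    · intro h i w
      have h1 := (ih i _).1 (h i (g.symm ∘ w))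
      rw [comp_append] at h1
      have : (g : A → B) ∘ (g.symm : B → A) ∘ w = w := by
        funext j; simp
      rwa [this] at h1
    · intro h i w
      rw [ih i, comp_append]
      exact h i _

theorem append_update {A : Type} (F : ℕ → A) (n : ℕ) (b : A) :
    Fin.append (fun i : Fin n => F i) (fun _ : Fin 1 => b) =
      fun i : Fin (n + 1) => Function.update F n b i := by
  funext i
  induction i using Fin.addCases with
  | left i =>
    rw [Fin.append_left]
    have : ((Fin.castAdd 1 i : Fin (n + 1)) : ℕ) ≠ n := by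
      simp only [Fin.val_castAdd]; exact (ne_of_lt i.2)
    rw [Function.update_of_ne this]
    simp
  | right i =>
    rw [Fin.append_right]
    have : ((Fin.natAdd n i : Fin (n + 1)) : ℕ) = n := by
      simp [Fin.natAdd]
    rw [this, Function.update_self]

/-- back-and-forth for countable structures -/
theorem back_forth {M B : Type} [Countable M] [Nonempty M] [Countable B] [Nonempty B]
    (s : M → M → Prop) (t : B → B → Prop)
    (P : (n : ℕ) → (Fin n → M) → (Fin n → B) → Prop)
    (h0 : ∀ a x, P 0 a x)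
    (hs : ∀ n a x, P n a x → SameQf s a t x)
    (hf : ∀ n a x, P n a x → ∀ b, ∃ y, P (n + 1) (Fin.append a (fun _ : Fin 1 => b))
      (Fin.append x (fun _ : Fin 1 => y)))
    (hb : ∀ n a x, P n a x → ∀ y, ∃ b, P (n + 1) (Fin.append a (fun _ : Fin 1 => b))
      (Fin.append x (fun _ : Fin 1 => y))) : Nonempty (s ≃r t) := by
  classical
  obtain ⟨eM, heM⟩ := exists_surjective_nat M
  obtain ⟨eB, heB⟩ := exists_surjective_nat B
  have step : ∀ (n : ℕ) (A : ℕ → M) (X : ℕ → B), ∃ p : M × B,
      P n (fun i => A i) (fun i => X i) →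
      P (n + 1) (fun i => Function.update A n p.1 i) (fun i => Function.update X n p.2 i) ∧
      (Even n → p.1 = eM (n / 2)) ∧ (¬ Even n → p.2 = eB (n / 2)) := by
    intro n A X
    by_cases hP : P n (fun i => A i) (fun i => X i)
    · by_cases he : Even n
      · obtain ⟨y, hy⟩ := hf n _ _ hP (eM (n / 2))
        rw [append_update, append_update] at hy
        exact ⟨(eM (n / 2), y), fun _ => ⟨hy, fun _ => rfl, fun h => absurd he h⟩⟩
      · obtain ⟨b, hb'⟩ := hb n _ _ hP (eB (n / 2))
        rw [append_update, append_update] at hb'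
        exact ⟨(b, eB (n / 2)), fun _ => ⟨hb', fun h => absurd h he, fun _ => rfl⟩⟩
    · exact ⟨(Classical.arbitrary M, Classical.arbitrary B), fun h => absurd h hP⟩
  choose p hp using step
  let st : ℕ → (ℕ → M) × (ℕ → B) := fun n => Nat.rec
    (fun _ => Classical.arbitrary M, fun _ => Classical.arbitrary B)
    (fun n q => (Function.update q.1 n (p n q.1 q.2).1, Function.update q.2 n (p n q.1 q.2).2)) n
  have st1 : ∀ n, (st (n + 1)).1 = Function.update (st n).1 n (p n (st n).1 (st n).2).1 :=
    fun n => rfl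
  have st2 : ∀ n, (st (n + 1)).2 = Function.update (st n).2 n (p n (st n).1 (st n).2).2 :=
    fun n => rfl
  have hP : ∀ n, P n (fun i => (st n).1 i) (fun i => (st n).2 i) := by
    intro n
    induction n with
    | zero => exact h0 _ _
    | succ n ih =>
      have := (hp n _ _ ih).1
      rw [← st1, ← st2] at this
      exact this
  let F : ℕ → M := fun i => (st (i + 1)).1 i
  let G : ℕ → B := fun i => (st (i + 1)).2 i
  have hF : ∀ n i, i < n → (st n).1 i = F i := by
    intro n
    induction n with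
    | zero => intro i hi; exact absurd hi (Nat.not_lt_zero i)
    | succ n ih =>
      intro i hi
      rcases Nat.lt_succ_iff_lt_or_eq.1 hi with h | h
      · rw [st1, Function.update_of_ne (ne_of_lt h)]
        exact ih i h
      · subst h; rfl
  have hG : ∀ n i, i < n → (st n).2 i = G i := by
    intro n
    induction n with
    | zero => intro i hi; exact absurd hi (Nat.not_lt_zero i)
    | succ n ih =>
      intro i hi
      rcases Nat.lt_succ_iff_lt_or_eq.1 hi with h | h
      · rw [st2, Function.update_of_ne (ne_of_lt h)]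
        exact ih i h
      · subst h; rfl
  have hFG : ∀ i j, (s (F i) (F j) ↔ t (G i) (G j)) ∧ (F i = F j ↔ G i = G j) := by
    intro i j
    have h1 := hs _ _ _ (hP (max i j + 1))
    have hi : i < max i j + 1 := by omega
    have hj : j < max i j + 1 := by omega
    have h2 := h1.1 ⟨i, hi⟩ ⟨j, hj⟩
    have h3 := h1.2 ⟨i, hi⟩ ⟨j, hj⟩
    simp only [hF _ _ hi, hF _ _ hj, hG _ _ hi, hG _ _ hj] at h2 h3
    exact ⟨h2, h3⟩
  have sF : Function.Surjective F := by
    intro m
    obtain ⟨k, hk⟩ := heM m
    refine ⟨2 * k, ?_⟩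
    have h1 := (hp (2 * k) _ _ (hP (2 * k))).2.1 (even_two_mul k)
    have h2 : F (2 * k) = (p (2 * k) (st (2 * k)).1 (st (2 * k)).2).1 := by
      show (st (2 * k + 1)).1 (2 * k) = _
      rw [st1, Function.update_self]
    rw [h2, h1, ← hk]
    congr 1
    omega
  have sG : Function.Surjective G := by
    intro m
    obtain ⟨k, hk⟩ := heB m
    refine ⟨2 * k + 1, ?_⟩
    have h1 := (hp (2 * k + 1) _ _ (hP (2 * k + 1))).2.2 (by
      rw [Nat.not_even_iff_odd]; exact odd_two_mul_add_one k)
    have h2 : G (2 * k + 1) = (p (2 * k + 1) (st (2 * k + 1)).1 (st (2 * k + 1)).2).2 := by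
      have h3 := congrFun (st2 (2 * k + 1)) (2 * k + 1)
      rw [Function.update_self] at h3
      exact h3
    rw [h2, h1, ← hk]
    congr 1
    omega
  choose iF hiF using sF
  let e : M → B := fun m => G (iF m)
  have he : ∀ i, e (F i) = G i := fun i => ((hFG _ _).2).1 (hiF (F i))
  have hbij : Function.Bijective e := by
    constructor
    · intro m m' hmm
      have := ((hFG (iF m) (iF m')).2).2 hmm
      rwa [hiF, hiF] at this
    · intro b
      obtain ⟨i, hi⟩ := sG b
      exact ⟨F i, by rw [he, hi]⟩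
  refine ⟨⟨Equiv.ofBijective e hbij, ?_⟩⟩
  intro m m'
  have := (hFG (iF m) (iF m')).1
  rw [hiF, hiF] at this
  exact this.symm

theorem k3 : K3_stmt := by
  intro h M _ _ s β hβ horb
  classical
  choose Φ hΦl hΦ using horb
  obtain ⟨eM, heM⟩ := exists_surjective_nat M
  have h1 : 1 ≤ β + 1 := le_trans hβ (le_of_lt (Order.lt_add_one_iff.2 le_rfl))
  have hlt : β < β + 1 := Order.lt_add_one_iff.2 le_rfl
  -- the formulas `θ`
  have hθ : ∀ (n : ℕ) (a : Fin n → M), ∃ θ : Fml n, θ.Lv false (β + 1) ∧
      ∀ (A : Type) (r : A → A → Prop) (v : Fin n → A), θ.Realize r v ↔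
        ((n ≠ 0 ∧ ¬ (Φ n a).Realize r v) ∨ (SameQf s a r v ∧
          (∀ b, ∃ y : A, (Φ (n + 1) (Fin.append a (fun _ : Fin 1 => b))).Realize r
            (Fin.append v (fun _ : Fin 1 => y))) ∧
          ∀ y : A, ∃ b : M, (Φ (n + 1) (Fin.append a (fun _ : Fin 1 => b))).Realize r
            (Fin.append v (fun _ : Fin 1 => y)))) := by
    intro n a
    -- first disjunct
    obtain ⟨χ, hχl, hχ⟩ : ∃ χ : Fml n, χ.Lv false (β + 1) ∧
        ∀ (A : Type) (r : A → A → Prop) (v : Fin n → A), χ.Realize r v ↔
          (n ≠ 0 ∧ ¬ (Φ n a).Realize r v) := by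
      by_cases hn : n = 0
      · refine ⟨Fml.qf (QF.neg QF.tru), ?_, fun A r v => ?_⟩
        · simp [Fml.Lv]
        · simp [Fml.Realize, QF.Realize, hn]
      · obtain ⟨φ', hl, hr⟩ := h.neg n (Φ n a)
        refine ⟨φ', ?_, fun A r v => ?_⟩
        · exact h.mono n φ' false β (β + 1) hlt.le (hl true β (hΦl n a))
        · rw [hr]; exact ⟨fun h => ⟨hn, h⟩, fun h => h.2⟩
    -- diagram
    obtain ⟨D, hD⟩ := h.qf n (fun i j => s (a i) (a j)) (fun i j => a i = a j)
    -- forth
    have hfo : ∀ i : ℕ, ∃ f : Fml n, f.Lv false (β + 1) ∧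
        ∀ (A : Type) (r : A → A → Prop) (v : Fin n → A), f.Realize r v ↔
          ∃ y : A, (Φ (n + 1) (Fin.append a (fun _ : Fin 1 => eM i))).Realize r
            (Fin.append v (fun _ : Fin 1 => y)) := by
      intro i
      obtain ⟨f1, hf1l, hf1⟩ := h.ex β hβ n 1 (Φ (n + 1) (Fin.append a (fun _ : Fin 1 => eM i)))
        (hΦl _ _)
      obtain ⟨f2, hf2l, hf2⟩ := h.lift n f1 true
      refine ⟨f2, hf2l β (β + 1) hlt hf1l, fun A r v => ?_⟩
      rw [hf2, hf1]
      constructor
      · rintro ⟨w, hw⟩
        refine ⟨w 0, ?_⟩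
        have : (fun _ : Fin 1 => w 0) = w := by
          funext j; rw [Subsingleton.elim j 0]
        rwa [this]
      · rintro ⟨y, hy⟩
        exact ⟨_, hy⟩
    choose f hfl hf using hfo
    obtain ⟨f', hf'l, hf'⟩ := h.conj (β + 1) h1 n f hfl
    -- back
    obtain ⟨g1, hg1l, hg1⟩ := h.disj β hβ (n + 1)
      (fun i => Φ (n + 1) (Fin.append a (fun _ : Fin 1 => eM i))) (fun i => hΦl _ _)
    obtain ⟨g2, hg2l, hg2⟩ := h.lift (n + 1) g1 true
    obtain ⟨g3, hg3l, hg3⟩ := h.all (β + 1) h1 n 1 g2 (hg2l β (β + 1) hlt hg1l)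
    obtain ⟨k1, hk1l, hk1⟩ := h.and false (β + 1) n f' g3 hf'l hg3l
    obtain ⟨k2, hk2l, hk2⟩ := h.and false (β + 1) n (Fml.qf D) k1 (by simp [Fml.Lv]) hk1l
    obtain ⟨k3, hk3l, hk3⟩ := h.or false (β + 1) n χ k2 hχl hk2l
    refine ⟨k3, hk3l, fun A r v => ?_⟩
    rw [hk3, hχ, hk2, hk1, hf', hg3]
    refine or_congr Iff.rfl (and_congr ?_ (and_congr ?_ ?_))
    · rw [Fml.Realize, hD]
      exact ⟨fun hh => ⟨fun i j => (hh.1 i j).symm, fun i j => (hh.2 i j).symm⟩,
        fun hh => ⟨fun i j => (hh.1 i j).symm, fun i j => (hh.2 i j).symm⟩⟩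
    · constructor
      · intro hh b
        obtain ⟨i, rfl⟩ := heM b
        exact (hf i A r v).1 (hh i)
      · intro hh i
        exact (hf i A r v).2 (hh (eM i))
    · constructor
      · intro hh y
        have h2 := hh (fun _ => y)
        rw [hg2, hg1] at h2
        obtain ⟨i, hi⟩ := h2
        exact ⟨eM i, hi⟩
      · intro hh w
        rw [hg2, hg1]
        obtain ⟨b, hb⟩ := hh (w 0)
        obtain ⟨i, rfl⟩ := heM b
        refine ⟨i, ?_⟩
        have : (fun _ : Fin 1 => w 0) = w := by
          funext j; rw [Subsingleton.elim j 0]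
        rwa [this] at hb
  choose θ hθl hθ using hθ
  -- universal closure
  have hcl : ∀ p : (Σ n : ℕ, Fin n → M), ∃ c : Fml 0, c.Lv false (β + 1) ∧
      ∀ (A : Type) (r : A → A → Prop) (v : Fin 0 → A), c.Realize r v ↔
        ∀ x : Fin p.1 → A, (θ p.1 p.2).Realize r x := by
    rintro ⟨n, a⟩
    obtain ⟨c1, hc1l, hc1⟩ := h.re n (0 + n) (Fin.cast (Nat.zero_add n).symm) (θ n a)
    obtain ⟨c2, hc2l, hc2⟩ := h.all (β + 1) h1 0 n c1 (hc1l _ _ (hθl n a))
    refine ⟨c2, hc2l, fun A r v => ?_⟩
    rw [hc2]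
    refine forall_congr' fun w => ?_
    rw [hc1]
    have : Fin.append v w ∘ Fin.cast (Nat.zero_add n).symm = w := by
      funext i
      simp only [Function.comp]
      have : (Fin.cast (Nat.zero_add n).symm i) = Fin.natAdd 0 i := by
        ext; simp
      rw [this, Fin.append_right]
    rw [this]
  choose c hcl hc using hcl
  obtain ⟨eS, heS⟩ := exists_surjective_nat (Σ n : ℕ, Fin n → M)
  obtain ⟨ψ, hψl, hψ⟩ := h.conj (β + 1) h1 0 (fun i => c (eS i)) (fun i => hcl _)
  have hψ' : ∀ (A : Type) (r : A → A → Prop), Sat r ψ ↔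
      ∀ (n : ℕ) (a : Fin n → M) (x : Fin n → A), (θ n a).Realize r x := by
    intro A r
    unfold Sat
    rw [hψ]
    constructor
    · intro hh n a
      obtain ⟨i, hi⟩ := heS ⟨n, a⟩
      have := hh i
      rw [hi] at this
      exact (hc _ A r _).1 this
    · intro hh i
      exact (hc _ A r _).2 (hh _ _)
  refine ⟨ψ, hψl, ?_⟩
  intro B _ t
  constructor
  · intro hsat
    rw [hψ'] at hsat
    let P : (n : ℕ) → (Fin n → M) → (Fin n → B) → Prop :=
      fun n a x => n = 0 ∨ (Φ n a).Realize t x
    have key : ∀ n a x, P n a x → (SameQf s a t x ∧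
          (∀ b, ∃ y : B, (Φ (n + 1) (Fin.append a (fun _ : Fin 1 => b))).Realize t
            (Fin.append x (fun _ : Fin 1 => y))) ∧
          ∀ y : B, ∃ b : M, (Φ (n + 1) (Fin.append a (fun _ : Fin 1 => b))).Realize t
            (Fin.append x (fun _ : Fin 1 => y))) := by
      intro n a x hP
      rcases (hθ n a B t x).1 (hsat n a x) with h3 | h3
      · rcases hP with h4 | h4
        · exact absurd h4 h3.1
        · exact absurd h4 h3.2
      · exact h3
    have : Nonempty B := by
      obtain ⟨y, -⟩ := (key 0 Fin.elim0 Fin.elim0 (Or.inl rfl)).2.1 (Classical.arbitrary M)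
      exact ⟨y⟩
    refine back_forth s t P (fun a x => Or.inl rfl) (fun n a x hP => (key n a x hP).1) ?_ ?_
    · intro n a x hP b
      obtain ⟨y, hy⟩ := (key n a x hP).2.1 b
      exact ⟨y, Or.inr hy⟩
    · intro n a x hP y
      obtain ⟨b, hb⟩ := (key n a x hP).2.2 y
      exact ⟨b, Or.inr hb⟩
  · rintro ⟨g⟩
    have hM : Sat s ψ := by
      rw [hψ']
      intro n a x
      rw [hθ]
      by_cases hn : n ≠ 0 ∧ ¬ (Φ n a).Realize s x
      · exact Or.inl hn
      · right
        have horb : Orbit s a x := by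
          by_cases h0 : n = 0
          · subst h0
            exact ⟨RelIso.refl s, fun i => i.elim0⟩
          · have : (Φ n a).Realize s x := by
              by_contra h5
              exact hn ⟨h0, h5⟩
            exact (hΦ n a x).1 this
        obtain ⟨g, hg⟩ := horb
        refine ⟨⟨fun i j => ?_, fun i j => ?_⟩, fun b => ⟨g b, ?_⟩, fun y => ⟨g.symm y, ?_⟩⟩
        · rw [← hg i, ← hg j]; exact (g.map_rel_iff).symm
        · rw [← hg i, ← hg j]; exact (g.injective.eq_iff).symm
        · rw [hΦ]
          refine ⟨g, fun i => ?_⟩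
          induction i using Fin.addCases with
          | left i => simp [hg]
          | right i => simp
        · rw [hΦ]
          refine ⟨g, fun i => ?_⟩
          induction i using Fin.addCases with
          | left i => simp [hg]
          | right i => simp
    unfold Sat at hM ⊢
    rw [fml_iso g] at hM
    have : (g : M → B) ∘ (Fin.elim0 : Fin 0 → M) = Fin.elim0 := by
      funext i; exact i.elim0
    rwa [this] at hM

end Pool.Agent.W917.SR
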