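import Mathlib
import Pool.Agent.W889.SR.Stm

/-!
# SR-CBD: densely decided predicates
-/

set_option autoImplicit false

namespace Pool.Agent.W917.SR

open Pool.Agent.W889.SR Set Ordinal

section laws

variable {T : Type} {α : Ordinal.{0}} {r : T → T → Prop}

theorem dec_congr {ι : Type} {Ψ Ψ' : Pred ι} (h : ∀ s f, Ψ s f ↔ Ψ' s f) (hd : Dec α r Ψ) :
    Dec α r Ψ' := by
  have : Ψ = Ψ' := by
    funext s f; exact propext (h s f)
  rwa [← this]

variable (L : DecLaws α r)
include L

theorem dec_tru {ι : Type} : Dec α r (fun _ (_ : ι → ℕ) => True) :=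
  dec_congr (fun _ _ => ⟨fun _ => trivial, fun _ j => j.elim⟩)
    (L.all (ι := ι) PEmpty.{2} (fun j => j.elim) (fun j => j.elim))

theorem dec_const {ι : Type} (c : Prop) : Dec α r (fun _ (_ : ι → ℕ) => c) := by
  by_cases hc : c
  · exact dec_congr (fun _ _ => ⟨fun _ => hc, fun _ => trivial⟩) (dec_tru L)
  · exact dec_congr (fun _ _ => ⟨fun h => absurd trivial h, fun h => absurd h hc⟩)
      (L.not _ (dec_tru L (ι := ι)))

theorem dec_allT {ι : Type} {J : Type} [Countable J] {Ψ : J → Pred ι}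
    (h : ∀ j, Dec α r (Ψ j)) : Dec α r (fun s f => ∀ j, Ψ j s f) := by
  have h1 := L.all (ULift.{1} J) (fun j : ULift.{1} J => Ψ j.down) (fun j => h j.down)
  refine dec_congr (fun _ _ => ?_) h1
  exact ⟨fun h j => h ⟨j⟩, fun h j => h j.down⟩

theorem dec_and {ι : Type} {Ψ Φ : Pred ι} (h : Dec α r Ψ) (h' : Dec α r Φ) :
    Dec α r (fun s f => Ψ s f ∧ Φ s f) :=
  dec_congr (fun _ _ => ⟨fun h => ⟨h true, h false⟩, fun h j => by cases j; exacts [h.2, h.1]⟩)
    (dec_allT L (J := Bool) (Ψ := fun j => Bool.rec Φ Ψ j) (fun j => by cases j; exacts [h', h]))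

theorem dec_imp {ι : Type} {Ψ Φ : Pred ι} (h : Dec α r Ψ) (h' : Dec α r Φ) :
    Dec α r (fun s f => Ψ s f → Φ s f) :=
  dec_congr (fun _ _ => by tauto) (L.not _ (dec_and L h (L.not _ h')))

theorem dec_iff {ι : Type} {Ψ Φ : Pred ι} (h : Dec α r Ψ) (h' : Dec α r Φ) :
    Dec α r (fun s f => (Ψ s f ↔ Φ s f)) :=
  dec_congr (fun _ _ => by tauto) (dec_and L (dec_imp L h h') (dec_imp L h' h))

theorem dec_all1 {ι : Type} {J : Type 1} [Countable J] {Ψ : J → Pred ι}
    (h : ∀ j, Dec α r (Ψ j)) : Dec α r (fun s f => ∀ j, Ψ j s f) := L.all J Ψ h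

theorem dec_exT {ι : Type} {J : Type} [Countable J] {Ψ : J → Pred ι}
    (h : ∀ j, Dec α r (Ψ j)) : Dec α r (fun s f => ∃ j, Ψ j s f) :=
  dec_congr (fun _ _ => by push Not; rfl) (L.not _ (dec_allT L (fun j => L.not _ (h j))))

theorem dec_ex1 {ι : Type} {J : Type 1} [Countable J] {Ψ : J → Pred ι}
    (h : ∀ j, Dec α r (Ψ j)) : Dec α r (fun s f => ∃ j, Ψ j s f) :=
  dec_congr (fun _ _ => by push Not; rfl) (L.not _ (dec_all1 L (fun j => L.not _ (h j))))

theorem dec_fall {ι : Type} (k : ℕ) {χ : Pred (ι ⊕ Fin k)} (h : Dec α r χ) :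
    Dec α r (fun s f => ∀ z : Fin k → ℕ, χ s (Sum.elim f z)) :=
  dec_congr (fun _ _ => by push Not; rfl) (L.not _ (L.ex k _ (L.not _ h)))

theorem dec_same {ι : Type} [Countable ι] (a : ι → T) :
    Dec α r (fun s (f : ι → ℕ) => SameQf r a s f) :=
  dec_and L (dec_allT L fun i => dec_allT L fun j => dec_iff L (dec_const L _) (L.le i j))
    (dec_allT L fun i => dec_allT L fun j => dec_iff L (dec_const L _) (L.eq i j))

theorem dec_same' {ι : Type} [Countable ι] (a : ι → T) :
    Dec α r (fun s (f : ι → ℕ) => SameQf s f r a) :=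
  dec_and L (dec_allT L fun i => dec_allT L fun j => dec_iff L (L.le i j) (dec_const L _))
    (dec_allT L fun i => dec_allT L fun j => dec_iff L (L.eq i j) (dec_const L _))

/-- the back-and-forth relations of cones are densely decided -/
theorem dec_bf [Countable T] (hα : (Set.Iio α).Countable) (γ : Ordinal.{0}) : γ < α →
    (∀ (ι : Type) [Countable ι] (o : ι) (a : ι → T),
      Dec α r (fun s (f : ι → ℕ) => BF γ r {x | r (a o) x} a s {y | s (f o) y} f)) ∧
    (∀ (ι : Type) [Countable ι] (o : ι) (a : ι → T),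
      Dec α r (fun s (f : ι → ℕ) => BF γ s {y | s (f o) y} f r {x | r (a o) x} a)) := by
  induction γ using Ordinal.induction with
  | h γ ih =>
    intro hγ
    have hc : Countable (Set.Iio γ) :=
      (hα.mono (Set.Iio_subset_Iio hγ.le)).to_subtype
    constructor
    · intro ι _ o a
      refine dec_congr (Ψ := fun s f => SameQf r a s f ∧ ∀ j : Set.Iio γ, ∀ k : ℕ,
        ∀ z : Fin k → ℕ, (∀ i, s (Sum.elim f z (Sum.inl o)) (Sum.elim f z (Sum.inr i))) →
          ∃ c : Fin k → T, (∀ i, r (a o) (c i)) ∧ BF j.1 s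
            {y | s (Sum.elim f z (Sum.inl o)) y} (Sum.elim f z) r
            {x | r (Sum.elim a c (Sum.inl o)) x} (Sum.elim a c)) ?_ ?_
      · intro s f
        rw [BF_iff γ]
        refine and_congr Iff.rfl ?_
        constructor
        · intro h γ' hγ' k d hd
          exact h ⟨γ', hγ'⟩ k d hd
        · intro h j k d hd
          exact h j.1 j.2 k d hd
      · refine dec_and L (dec_same L a) (dec_all1 L fun j => dec_allT L fun k =>
          dec_fall L k (χ := fun s f => (∀ i, s (f (Sum.inl o)) (f (Sum.inr i))) →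
            ∃ c : Fin k → T, (∀ i, r (a o) (c i)) ∧ BF j.1 s {y | s (f (Sum.inl o)) y} f r
              {x | r (Sum.elim a c (Sum.inl o)) x} (Sum.elim a c))
          (dec_imp L (dec_allT L fun i => L.le _ _) (dec_exT L fun c =>
            dec_and L (dec_const L _) ((ih j.1 j.2 (lt_trans j.2 hγ)).2 _ (Sum.inl o) _))))
    · intro ι _ o a
      refine dec_congr (Ψ := fun s f => SameQf s f r a ∧ ∀ j : Set.Iio γ, ∀ k : ℕ,
        ∀ d : Fin k → T, (∀ i, r (a o) (d i)) →
          ∃ z : Fin k → ℕ, (∀ i, s (Sum.elim f z (Sum.inl o)) (Sum.elim f z (Sum.inr i))) ∧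
            BF j.1 r {x | r (Sum.elim a d (Sum.inl o)) x} (Sum.elim a d) s
            {y | s (Sum.elim f z (Sum.inl o)) y} (Sum.elim f z)) ?_ ?_
      · intro s f
        rw [BF_iff γ]
        refine and_congr Iff.rfl ?_
        constructor
        · intro h γ' hγ' k d hd
          exact h ⟨γ', hγ'⟩ k d hd
        · intro h j k d hd
          exact h j.1 j.2 k d hd
      · refine dec_and L (dec_same' L a) (dec_all1 L fun j => dec_allT L fun k =>
          dec_allT L fun d => dec_imp L (dec_const L _)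
            (L.ex k (fun s f => (∀ i, s (f (Sum.inl o)) (f (Sum.inr i))) ∧
              BF j.1 r {x | r (Sum.elim a d (Sum.inl o)) x} (Sum.elim a d) s
                {y | s (f (Sum.inl o)) y} f)
            (dec_and L (dec_allT L fun i => L.le _ _)
              ((ih j.1 j.2 (lt_trans j.2 hγ)).1 _ (Sum.inl o) _))))

theorem dec_sat [Countable T] (hα : (Set.Iio α).Countable) (q : Q (SB T α)) :
    ∀ {ι : Type} [Countable ι] (v : ι) (u : ℕ → ι),
      Dec α r (fun s (f : ι → ℕ) => q.sat (Bs r) s (f v) (f ∘ u)) := by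
  induction q with
  | base b =>
    intro ι _ v u
    cases b with
    | le i j => exact L.le (u i) (u j)
    | eq i j => exact L.eq (u i) (u j)
    | cb n e a β w =>
      have h1 := (dec_bf L hα β.1 β.2).1 (Option (Fin n)) none
        (fun o : Option (Fin n) => o.elim e a)
      have h2 := L.re _ (fun o : Option (Fin n) => o.elim v (u ∘ w)) h1
      refine dec_congr (fun s f => ?_) h2
      have : f ∘ (fun o : Option (Fin n) => o.elim v (u ∘ w)) =
          fun o : Option (Fin n) => o.elim (f v) ((f ∘ u) ∘ w) := by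
        funext o; cases o <;> rfl
      rw [this]
      exact Iff.rfl
  | neg q ih => intro ι _ v u; exact L.not _ (ih v u)
  | and q q' ih ih' => intro ι _ v u; exact dec_and L (ih v u) (ih' v u)
  | ex i q ih =>
    intro ι _ v u
    have h1 := L.ex 1 (fun s (f : ι ⊕ Fin 1 → ℕ) => s (f (Sum.inl v)) (f (Sum.inr 0)) ∧
      q.sat (Bs r) s (f (Sum.inl v)) (f ∘ (Function.update (Sum.inl ∘ u) i (Sum.inr 0))))
      (dec_and L (L.le _ _) (ih _ _))
    refine dec_congr (fun s f => ?_) h1
    constructor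
    · rintro ⟨z, hz1, hz2⟩
      refine ⟨z 0, hz1, ?_⟩
      rw [Function.comp_update] at hz2
      exact hz2
    · rintro ⟨w, hw1, hw2⟩
      refine ⟨fun _ => w, hw1, ?_⟩
      rw [Function.comp_update]
      exact hw2

theorem dec_satx [Countable T] (hα : (Set.Iio α).Countable) (q : Q (SB T α))
    {ι : Type} [Countable ι] (v : ι) {k : ℕ} (c : Fin k → ι) :
    Dec α r (fun s (f : ι → ℕ) => q.sat (Bs r) s (f v) (ext (f v) (fun i => f (c i)))) := by
  refine dec_congr (fun s f => ?_)
    (dec_sat L hα q v (fun i : ℕ => if h : i < k then c ⟨i, h⟩ else v))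
  have : f ∘ (fun i : ℕ => if h : i < k then c ⟨i, h⟩ else v) =
      ext (f v) (fun i => f (c i)) := by
    funext i
    by_cases h : i < k
    · simp [W889.SR.ext, h]
    · simp [W889.SR.ext, h]
  rw [this]

variable [Countable T] (hα : (Set.Iio α).Countable) [Countable (Q (SB T α))]
include hα

theorem dec_stp {ι : Type} [Countable ι] (v w : ι) {k : ℕ} (c d : Fin k → ι) :
    Dec α r (fun s (f : ι → ℕ) => SameTp (Bs (α := α) r) s (f v) (fun i => f (c i)) (f w)
      (fun i => f (d i))) :=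
  dec_all1 L fun q => dec_iff L (dec_satx L hα q v c) (dec_satx L hα q w d)

theorem dec_isol {ι : Type} [Countable ι] (v : ι) {k : ℕ} (c : Fin k → ι) :
    Dec α r (fun s (f : ι → ℕ) => Isol (Bs (α := α) r) s (f v) (fun i => f (c i))) := by
  refine dec_ex1 L fun τ => dec_and L (dec_satx L hα τ v c) ?_
  exact dec_fall L k (χ := fun s f => (∀ i, s (f (Sum.inl v)) (f (Sum.inr i))) →
    τ.sat (Bs r) s (f (Sum.inl v)) (ext (f (Sum.inl v)) (fun i => f (Sum.inr i))) →
      SameTp (Bs (α := α) r) s (f (Sum.inl v)) (fun i => f (Sum.inr i)) (f (Sum.inl v))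
        (fun i => f (Sum.inl (c i))))
    (dec_imp L (dec_allT L fun i => L.le _ _) (dec_imp L (dec_satx L hα τ _ _)
      (dec_stp L hα _ _ _ _)))

theorem dec_atomic {ι : Type} [Countable ι] (v : ι) :
    Dec α r (fun s (f : ι → ℕ) => Atomic (Bs (α := α) r) s (f v)) :=
  dec_allT L fun k => dec_fall L k (χ := fun s f => (∀ i, s (f (Sum.inl v)) (f (Sum.inr i))) →
    Isol (Bs (α := α) r) s (f (Sum.inl v)) (fun i => f (Sum.inr i)))
    (dec_imp L (dec_allT L fun i => L.le _ _) (dec_isol L hα _ _))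

end laws

theorem countable_SB (T : Type) [Countable T] (α : Ordinal.{0}) (hα : (Set.Iio α).Countable) :
    Countable (SB T α) := by
  have hc : Countable (Set.Iio α) := hα.to_subtype
  let g : (ℕ × ℕ) ⊕ ((ℕ × ℕ) ⊕ (Σ n : ℕ, T × (Fin n → T) × Set.Iio α × (Fin n → ℕ))) → SB T α :=
    fun x => match x with
    | .inl p => .le p.1 p.2
    | .inr (.inl p) => .eq p.1 p.2
    | .inr (.inr ⟨n, e, a, β, u⟩) => .cb n e a β u
  have hg : Function.Surjective g := by
    intro b
    cases b with
    | le i j => exact ⟨.inl (i, j), rfl⟩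
    | eq i j => exact ⟨.inr (.inl (i, j)), rfl⟩
    | cb n e a β u => exact ⟨.inr (.inr ⟨n, e, a, β, u⟩), rfl⟩
  exact hg.countable

theorem cbd : CBD_stmt := by
  intro T _ α hα hQ r L
  have : Countable (Q (SB T α)) := hQ _ (countable_SB T α hα)
  refine ⟨fun k q => ?_, fun k => ?_, fun k => ?_⟩
  · exact dec_satx L hα q (0 : Fin (k + 1)) (fun i : Fin k => i.succ)
  · exact dec_stp L hα (Sum.inl false : Bool ⊕ (Fin k ⊕ Fin k)) (Sum.inl true)
      (fun i => Sum.inr (Sum.inl i)) (fun i => Sum.inr (Sum.inr i))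
  · refine dec_and L ?_ (dec_and L (dec_atomic L hα (Sum.inl false : Bool ⊕ Fin k))
      (L.not _ (dec_isol L hα (Sum.inl true : Bool ⊕ Fin k) (fun i : Fin k => Sum.inr i))))
    refine dec_congr (fun s f => ?_) (dec_stp L hα (Sum.inl false : Bool ⊕ Fin k) (Sum.inl true)
      (k := 0) (fun i => i.elim0) (fun i => i.elim0))
    have : (fun i : Fin 0 => f (i.elim0)) = (Fin.elim0 : Fin 0 → ℕ) := by
      funext i; exact i.elim0
    rw [this]

end Pool.Agent.W917.SR
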